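import Mathlib

/-!
# Upper density thresholds for the sumsets `mB + ℓB`: Q1 and Q2 fail for every `m > ℓ ≥ 1`

The set `A` consists, around each factorial `n!`, of the blocks `[a n!/r^i, n!/r^i]`, `i < L`.
Whenever `y` lies in such a block, one of `(k+1) y`, `k y` lies in the gap above that block.
-/

set_option autoImplicit false

open Filter Topology

namespace Pool.Agent.Results.MP_697cf1_co.BothFail

/-- Upper density of a set of positive integers. -/
noncomputable def upperDensity (A : Set ℕ) : ℝ :=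
  limsup (fun N : ℕ => ((A ∩ Set.Icc 1 N).ncard : ℝ) / N) atTop

/-- The set of blocks. -/
def blocks (a r : ℝ) (L : ℕ) : Set ℕ :=
  {x | 1 ≤ x ∧ ∃ n i : ℕ, i < L ∧ a * (n.factorial / r ^ i) ≤ x ∧ (x : ℝ) ≤ n.factorial / r ^ i}

/-- Its variant: all positive integers not divisible by `q`, together with the blocks. -/
def modBlocks (a r : ℝ) (L q : ℕ) : Set ℕ :=
  {x | 1 ≤ x ∧ (¬ q ∣ x ∨ x ∈ blocks a r L)}

section gaps

variable {a r k : ℝ} {L : ℕ}

theorem gap (ha : 0 < a) (hr : 1 < r) {n i : ℕ} (hi : 1 ≤ i) (hiL : i < L)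
    (hn : r ^ L ≤ n) {w : ℕ} (hw : w ∈ blocks a r L) (h : (n.factorial : ℝ) / r ^ i < w) :
    a * r * (n.factorial / r ^ i) ≤ w := by
  obtain ⟨-, n', i', hi', h1, h2⟩ := hw
  have hr0 : 0 < r := by linarith
  have hn0 : 0 < n := by
    rcases Nat.eq_zero_or_pos n with h0 | h0
    · subst h0
      have : (0 : ℝ) < r ^ L := by positivity
      push_cast at hn
      linarith
    · exact h0
  have hfac : (n.factorial : ℝ) = n * (n - 1).factorial := by
    have := Nat.mul_factorial_pred hn0.ne'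
    rw [← this]
    push_cast
    ring
  have hpow : ∀ j : ℕ, 1 ≤ r ^ j := fun j => one_le_pow₀ hr.le
  have hposf : ∀ j : ℕ, (0 : ℝ) < j.factorial := fun j => by exact_mod_cast Nat.factorial_pos j
  rcases lt_trichotomy n' n with hlt | heq | hgt
  · exfalso
    have e1 : (n'.factorial : ℝ) ≤ (n - 1).factorial := by
      exact_mod_cast Nat.factorial_le (by omega)
    have e2 : (n'.factorial : ℝ) / r ^ i' ≤ n'.factorial :=
      div_le_self (hposf _).le (hpow _)
    have e3 : ((n - 1).factorial : ℝ) ≤ n.factorial / r ^ i := by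
      rw [le_div_iff₀ (by positivity), hfac, mul_comm]
      apply mul_le_mul_of_nonneg_right _ (hposf _).le
      exact (pow_le_pow_right₀ hr.le hiL.le).trans hn
    linarith
  · subst heq
    have e1 : (n'.factorial : ℝ) / r ^ i < n'.factorial / r ^ i' := lt_of_lt_of_le h h2
    have e2 : r ^ i' < r ^ i := by
      by_contra hcon
      push Not at hcon
      have : (n'.factorial : ℝ) / r ^ i' ≤ n'.factorial / r ^ i :=
        div_le_div_of_nonneg_left (hposf _).le (by positivity) hcon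
      linarith
    have e3 : i' < i := (pow_lt_pow_iff_right₀ hr).1 e2
    refine le_trans ?_ h1
    have e4 : (n'.factorial : ℝ) / r ^ i ≤ n'.factorial / r ^ (i' + 1) :=
      div_le_div_of_nonneg_left (hposf _).le (by positivity) (pow_le_pow_right₀ hr.le e3)
    have e5 : r * ((n'.factorial : ℝ) / r ^ (i' + 1)) = n'.factorial / r ^ i' := by
      rw [pow_succ]
      field_simp
    calc a * r * ((n'.factorial : ℝ) / r ^ i) = a * (r * ((n'.factorial : ℝ) / r ^ i)) := by ring
      _ ≤ a * (r * ((n'.factorial : ℝ) / r ^ (i' + 1))) := by gcongr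
      _ = a * (n'.factorial / r ^ i') := by rw [e5]
  · refine le_trans ?_ h1
    have e1 : ((n + 1).factorial : ℝ) ≤ n'.factorial := by
      exact_mod_cast Nat.factorial_le hgt
    have e2 : ((n + 1).factorial : ℝ) = (n + 1) * n.factorial := by
      rw [Nat.factorial_succ]; push_cast; ring
    have e3 : (n.factorial : ℝ) ≤ n'.factorial / r ^ i' := by
      rw [le_div_iff₀ (by positivity)]
      calc (n.factorial : ℝ) * r ^ i' ≤ n.factorial * n := by
            apply mul_le_mul_of_nonneg_left _ (hposf _).le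
            exact (pow_le_pow_right₀ hr.le hi'.le).trans hn
        _ ≤ (n + 1) * n.factorial := by nlinarith [hposf n]
        _ ≤ n'.factorial := by rw [← e2]; exact e1
    have e4 : r * ((n.factorial : ℝ) / r ^ i) ≤ n.factorial := by
      rw [mul_div_assoc', div_le_iff₀ (by positivity), mul_comm]
      apply mul_le_mul_of_nonneg_left _ (hposf _).le
      calc r = r ^ 1 := (pow_one r).symm
        _ ≤ r ^ i := pow_le_pow_right₀ hr.le hi
    calc a * r * ((n.factorial : ℝ) / r ^ i) = a * (r * ((n.factorial : ℝ) / r ^ i)) := by ring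
      _ ≤ a * n.factorial := by gcongr
      _ ≤ a * (n'.factorial / r ^ i') := by gcongr

theorem top (ha : 0 < a) (hr : 1 < r) {n : ℕ} {w : ℕ} (hw : w ∈ blocks a r L)
    (h : (n.factorial : ℝ) < w) : a * ((n + 1) * n.factorial / r ^ L) ≤ w := by
  obtain ⟨-, n', i', hi', h1, h2⟩ := hw
  have hr0 : 0 < r := by linarith
  have hpow : ∀ j : ℕ, 1 ≤ r ^ j := fun j => one_le_pow₀ hr.le
  have hposf : ∀ j : ℕ, (0 : ℝ) < j.factorial := fun j => by exact_mod_cast Nat.factorial_pos j
  have hlt : n < n' := by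
    by_contra hcon
    have e1 : (n'.factorial : ℝ) ≤ n.factorial := by
      exact_mod_cast Nat.factorial_le (by omega)
    have e2 : (n'.factorial : ℝ) / r ^ i' ≤ n'.factorial :=
      div_le_self (hposf _).le (hpow _)
    linarith
  refine le_trans ?_ h1
  have e1 : ((n + 1).factorial : ℝ) ≤ n'.factorial := by
    exact_mod_cast Nat.factorial_le hlt
  have e2 : ((n + 1).factorial : ℝ) = (n + 1) * n.factorial := by
    rw [Nat.factorial_succ]; push_cast; ring
  rw [← e2]
  apply mul_le_mul_of_nonneg_left _ ha.le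
  calc ((n + 1).factorial : ℝ) / r ^ L ≤ n'.factorial / r ^ L := by gcongr
    _ ≤ n'.factorial / r ^ i' :=
      div_le_div_of_nonneg_left (hposf _).le (by positivity) (pow_le_pow_right₀ hr.le hi'.le)

/-- No large `y` has (a bounded shift of) `y`, `k y`, `(k+1) y` in the set. -/
theorem no_triple (ha : 0 < a) (hr : 1 < r) (hk : 1 < k) (h1 : 1 < (k + 1) * a)
    (h2 : k + 1 < a * r * k) (h3 : k < a * r) (s1 s2 s3 : ℝ) :
    ∃ X : ℝ, ∀ y : ℝ, X ≤ y → ∀ u v w : ℕ, (u : ℝ) = y + s1 → (v : ℝ) = k * y + s2 →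
      (w : ℝ) = (k + 1) * y + s3 → u ∈ blocks a r L → v ∈ blocks a r L → w ∈ blocks a r L →
      False := by
  have hr0 : 0 < r := by linarith
  have hposf : ∀ j : ℕ, (0 : ℝ) < j.factorial := fun j => by exact_mod_cast Nat.factorial_pos j
  have lin : ∀ c C : ℝ, 0 < c → ∀ᶠ R : ℝ in atTop, C < c * R := by
    intro c C hc
    exact (tendsto_id.const_mul_atTop hc).eventually_gt_atTop C
  have E1 := lin ((k + 1) * a - 1) ((k + 1) * s1 - s3) (by linarith)
  have E2 := lin 1 (-(k + 1) * s1 + s3) one_pos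
  have E3 := lin (a * r * k - (k + 1)) (k * s3 - (k + 1) * s2) (by linarith)
  have E4 := lin (a * r - k) (s2 - k * s1) (by linarith)
  obtain ⟨R0, hR0⟩ := ((E1.and E2).and (E3.and E4)).exists_forall_of_atTop
  have N1 : ∀ᶠ n : ℕ in atTop, r ^ L ≤ (n : ℝ) :=
    tendsto_natCast_atTop_atTop.eventually_ge_atTop _
  have N2 : ∀ᶠ n : ℕ in atTop, (k + 2) * r ^ L / a ≤ (n : ℝ) :=
    tendsto_natCast_atTop_atTop.eventually_ge_atTop _
  obtain ⟨n0, hn0⟩ := (N1.and N2).exists_forall_of_atTop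
  refine ⟨max R0 (n0.factorial + 1) - s1, ?_⟩
  intro y hy u v w hu hv hw hu' hv' hw'
  obtain ⟨-, n, i, hi, b1, b2⟩ := hu'
  set R : ℝ := n.factorial / r ^ i with hR
  have hRu : max R0 (n0.factorial + 1) ≤ R := by
    have : max R0 ((n0.factorial : ℝ) + 1) ≤ y + s1 := by linarith
    linarith
  have hRR0 : R0 ≤ R := le_trans (le_max_left _ _) hRu
  have hRn0 : (n0.factorial : ℝ) + 1 ≤ R := le_trans (le_max_right _ _) hRu
  have hRn : R ≤ n.factorial := div_le_self (hposf _).le (one_le_pow₀ hr.le)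
  have hnn0 : n0 ≤ n := by
    by_contra hcon
    have : (n.factorial : ℝ) ≤ n0.factorial := by
      exact_mod_cast Nat.factorial_le (by omega)
    linarith
  obtain ⟨hn1, hn2⟩ := hn0 n hnn0
  obtain ⟨⟨e1, e2⟩, e3, e4⟩ := hR0 R hRR0
  have hRpos : 0 < R := by positivity
  -- `w > R`
  have hwR : R < w := by
    rw [hw]
    have : y = u - s1 := by linarith
    nlinarith
  rcases Nat.eq_zero_or_pos i with hi0 | hi0
  · subst hi0
    have hRe : R = n.factorial := by rw [hR]; simp
    rw [hRe] at hwR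
    have t1 := top ha hr hw' hwR
    have t2 : (w : ℝ) ≤ (k + 1) * R + (-(k + 1) * s1 + s3) := by
      rw [hw]
      have : y = u - s1 := by linarith
      nlinarith
    have t3 : (k + 2) * R ≤ a * ((n + 1) * n.factorial / r ^ L) := by
      rw [hRe]
      rw [div_le_iff₀ ha] at hn2
      rw [mul_div_assoc', le_div_iff₀ (by positivity)]
      have := hposf n
      nlinarith
    nlinarith
  · have g1 := gap ha hr hi0 hi hn1 hw' hwR
    rw [← hR] at g1
    have hvR : R < v := by
      have q1 : (k + 1) * (v : ℝ) = k * (w - s3) + (k + 1) * s2 := by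
        rw [hw, hv]; ring
      have q2 : (k + 1) * R < (k + 1) * (v : ℝ) := by
        rw [q1]
        nlinarith
      exact lt_of_mul_lt_mul_left q2 (by linarith)
    have g2 := gap ha hr hi0 hi hn1 hv' hvR
    rw [← hR] at g2
    have q3 : (v : ℝ) ≤ k * R - k * s1 + s2 := by
      rw [hv]
      have : y = u - s1 := by linarith
      nlinarith
    linarith

end gaps

/-- the sumset obstruction for `blocks` -/
theorem no_sumset {a r : ℝ} {L : ℕ} (m l : ℕ) (hl : 1 ≤ l) (hlm : l < m) (ha : 0 < a)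
    (hr : 1 < r) (h1 : 1 < ((m : ℝ) / l + 1) * a)
    (h2 : (m : ℝ) / l + 1 < a * r * (m / l)) (h3 : (m : ℝ) / l < a * r) (B : Set ℕ)
    (hB : B.Infinite) (t : ℕ) :
    ¬ ∀ b₁ ∈ B, ∀ b₂ ∈ B, m * b₁ + l * b₂ + t ∈ blocks a r L := by
  intro h
  obtain ⟨b, hb⟩ := hB.nonempty
  have hlR : (0 : ℝ) < l := by exact_mod_cast hl
  have hk : (1 : ℝ) < (m : ℝ) / l := by
    rw [one_lt_div hlR]; exact_mod_cast hlm
  obtain ⟨X, hX⟩ := no_triple (L := L) ha hr hk h1 h2 h3 ((m : ℝ) * b + t) ((l : ℝ) * b + t) (t : ℝ)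
  obtain ⟨x, hxB, hx⟩ := hB.exists_gt ⌈X⌉₊
  have hxX : X ≤ (l : ℝ) * x := by
    have q1 : X ≤ ⌈X⌉₊ := Nat.le_ceil X
    have q2 : (⌈X⌉₊ : ℝ) < x := by exact_mod_cast hx
    have q3 : (1 : ℝ) ≤ l := by exact_mod_cast hl
    have q4 : (0 : ℝ) ≤ x := Nat.cast_nonneg _
    nlinarith
  have hml : (m : ℝ) / l * (l * x) = m * x := by
    field_simp
  refine hX ((l : ℝ) * x) hxX (m * b + l * x + t) (m * x + l * b + t) (m * x + l * x + t) ?_ ?_ ?_
    (h b hb x hxB) (h x hxB b hb) (h x hxB x hxB)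
  · push_cast; ring
  · rw [hml]; push_cast; ring
  · rw [add_mul, hml]; push_cast; ring

/-- the sumset obstruction for `modBlocks` -/
theorem no_sumset_mod {a r : ℝ} {L : ℕ} (m l : ℕ) (hl : 1 ≤ l) (hlm : l < m) (ha : 0 < a)
    (hr : 1 < r) (h1 : 1 < ((m : ℝ) / l + 1) * a)
    (h2 : (m : ℝ) / l + 1 < a * r * (m / l)) (h3 : (m : ℝ) / l < a * r) (B : Set ℕ)
    (hB : B.Infinite) :
    ¬ ∀ b₁ ∈ B, ∀ b₂ ∈ B, m * b₁ + l * b₂ ∈ modBlocks a r L (m + l) := by
  intro h
  have hc : ∃ c < m + l, {b ∈ B | b % (m + l) = c}.Infinite := by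
    by_contra hcon
    push Not at hcon
    apply hB
    have : B = ⋃ c ∈ Finset.range (m + l), {b ∈ B | b % (m + l) = c} := by
      ext b
      simp only [Finset.mem_range, Set.mem_iUnion, Set.mem_ofPred_eq, exists_prop]
      constructor
      · intro hb
        exact ⟨b % (m + l), Nat.mod_lt _ (by omega), hb, rfl⟩
      · rintro ⟨c, -, hb, -⟩
        exact hb
    rw [this]
    refine Set.Finite.biUnion (Finset.finite_toSet _) ?_
    intro c hc
    rw [Finset.coe_range, Set.mem_Iio] at hc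
    exact hcon c hc
  obtain ⟨c, -, hc⟩ := hc
  refine no_sumset (L := L) m l hl hlm ha hr h1 h2 h3 {b ∈ B | b % (m + l) = c} hc 0 ?_
  intro b₁ hb₁ b₂ hb₂
  have h4 := h b₁ hb₁.1 b₂ hb₂.1
  have hdvd : (m + l) ∣ m * b₁ + l * b₂ := by
    rw [← Nat.modEq_zero_iff_dvd]
    have e1 : b₁ ≡ b₂ [MOD (m + l)] := by
      unfold Nat.ModEq
      rw [hb₁.2, hb₂.2]
    calc m * b₁ + l * b₂ ≡ m * b₂ + l * b₂ [MOD (m + l)] :=
          Nat.ModEq.add_right _ (Nat.ModEq.mul_left _ e1)
      _ = (m + l) * b₂ := by ring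
      _ ≡ 0 [MOD (m + l)] := by
          rw [Nat.modEq_zero_iff_dvd]; exact Dvd.intro _ rfl
  rcases h4.2 with h5 | h5
  · exact absurd hdvd h5
  · rw [add_zero]; exact h5

/-- multiples of `q` in a real interval -/
theorem count_multiples (q : ℕ) (hq : 1 ≤ q) (α β : ℝ) (hα : 0 ≤ α) :
    (β - α) / q - 1 ≤ (((Finset.Icc ⌈α / q⌉₊ ⌊β / q⌋₊).image (fun j => q * j)).card : ℝ) := by
  have hqR : (0 : ℝ) < q := by exact_mod_cast hq
  have hinj : Function.Injective (fun j => q * j) := by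
    intro x y hxy
    exact Nat.eq_of_mul_eq_mul_left hq hxy
  rw [Finset.card_image_of_injective _ hinj, Nat.card_Icc]
  have h1 := Nat.ceil_lt_add_one (div_nonneg hα hqR.le)
  have h2 := Nat.lt_floor_add_one (β / q)
  have h3 : ((⌊β / q⌋₊ + 1 : ℕ) : ℝ) - (⌈α / q⌉₊ : ℕ) ≤ ((⌊β / q⌋₊ + 1 - ⌈α / q⌉₊ : ℕ) : ℝ) := by
    rw [tsub_le_iff_right, ← Nat.cast_add, Nat.cast_le]
    omega
  push_cast at h3
  have h4 : (β - α) / q = β / q - α / q := by ring
  rw [h4]
  linarith

theorem count_blocks {a r : ℝ} (ha : 0 < a) (ha1 : a < 1) (hr : 1 < r) (har : 1 < a * r)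
    (L q : ℕ) (hq : 1 ≤ q) (n : ℕ) :
    ((1 - a) * ∑ i ∈ Finset.range L, (1 / r) ^ i) * n.factorial / q - L ≤
      (({x | q ∣ x ∧ x ∈ blocks a r L} ∩ Set.Icc 1 n.factorial).ncard : ℝ) := by
  classical
  have hr0 : 0 < r := by linarith
  have hqR : (0 : ℝ) < q := by exact_mod_cast hq
  have hposf : (0 : ℝ) < n.factorial := by exact_mod_cast Nat.factorial_pos n
  let I : ℕ → Finset ℕ := fun i =>
    (Finset.Icc ⌈(a * (n.factorial / r ^ i)) / q⌉₊ ⌊((n.factorial : ℝ) / r ^ i) / q⌋₊).image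
      (fun j => q * j)
  have hI : ∀ i, ∀ x ∈ I i, q ∣ x ∧ a * (n.factorial / r ^ i) ≤ x ∧
      (x : ℝ) ≤ n.factorial / r ^ i := by
    intro i x hx
    rw [Finset.mem_image] at hx
    obtain ⟨j, hj, rfl⟩ := hx
    rw [Finset.mem_Icc] at hj
    refine ⟨Dvd.intro _ rfl, ?_, ?_⟩
    · have := Nat.ceil_le.1 hj.1
      rw [div_le_iff₀ hqR] at this
      push_cast
      linarith
    · have h0 : (0 : ℝ) ≤ ((n.factorial : ℝ) / r ^ i) / q := by positivity
      have := (Nat.le_floor_iff h0).1 hj.2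
      rw [le_div_iff₀ hqR] at this
      push_cast
      linarith
  have hdisj : ∀ i j, i < j → Disjoint (I i) (I j) := by
    intro i j hij
    rw [Finset.disjoint_left]
    intro x hxi hxj
    have h1 := (hI i x hxi).2.1
    have h2 := (hI j x hxj).2.2
    have h3 : (n.factorial : ℝ) / r ^ j ≤ n.factorial / r ^ (i + 1) :=
      div_le_div_of_nonneg_left hposf.le (by positivity) (pow_le_pow_right₀ hr.le hij)
    have h5 : r * ((n.factorial : ℝ) / r ^ (i + 1)) = n.factorial / r ^ i := by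
      rw [pow_succ]
      field_simp
    have h6 : (0 : ℝ) < (n.factorial : ℝ) / r ^ (i + 1) := by positivity
    rw [← h5] at h1
    nlinarith
  have hcard : (((Finset.range L).biUnion I).card : ℝ) = ∑ i ∈ Finset.range L, ((I i).card : ℝ) := by
    rw [Finset.card_biUnion]
    · push_cast; rfl
    · intro i _ j _ hij
      rcases lt_or_gt_of_ne hij with h | h
      · exact hdisj i j h
      · exact (hdisj j i h).symm
  have hsub : (((Finset.range L).biUnion I : Finset ℕ) : Set ℕ) ⊆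
      {x | q ∣ x ∧ x ∈ blocks a r L} ∩ Set.Icc 1 n.factorial := by
    intro x hx
    rw [Finset.mem_coe, Finset.mem_biUnion] at hx
    obtain ⟨i, hi, hx⟩ := hx
    rw [Finset.mem_range] at hi
    obtain ⟨h1, h2, h3⟩ := hI i x hx
    have hx1 : 1 ≤ x := by
      have : (0 : ℝ) < x := lt_of_lt_of_le (by positivity) h2
      exact_mod_cast this
    refine ⟨⟨h1, hx1, n, i, hi, h2, h3⟩, hx1, ?_⟩
    have h4 : (n.factorial : ℝ) / r ^ i ≤ n.factorial := div_le_self hposf.le (one_le_pow₀ hr.le)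
    exact_mod_cast h3.trans h4
  have hle := Set.ncard_le_ncard hsub ((Set.finite_Icc 1 n.factorial).inter_of_right _)
  rw [Set.ncard_coe_finset] at hle
  have hleR : (((Finset.range L).biUnion I).card : ℝ) ≤
      (({x | q ∣ x ∧ x ∈ blocks a r L} ∩ Set.Icc 1 n.factorial).ncard : ℝ) := by
    exact_mod_cast hle
  refine le_trans ?_ hleR
  rw [hcard]
  have hterm : ∀ i ∈ Finset.range L, ((1 - a) * n.factorial / q) * (1 / r) ^ i - 1 ≤
      ((I i).card : ℝ) := by
    intro i _
    have := count_multiples q hq (a * (n.factorial / r ^ i)) ((n.factorial : ℝ) / r ^ i)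
      (by positivity)
    refine le_trans (le_of_eq ?_) this
    rw [one_div, inv_pow]
    ring
  refine le_trans (le_of_eq ?_) (Finset.sum_le_sum hterm)
  rw [Finset.sum_sub_distrib, ← Finset.mul_sum]
  simp only [Finset.sum_const, Finset.card_range, nsmul_eq_mul, mul_one]
  ring

theorem ratio_bdd (A : Set ℕ) :
    IsBoundedUnder (· ≤ ·) atTop (fun N : ℕ => ((A ∩ Set.Icc 1 N).ncard : ℝ) / N) := by
  refine isBoundedUnder_of ⟨1, fun M => ?_⟩
  have h1 : (A ∩ Set.Icc 1 M).ncard ≤ M := by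
    calc (A ∩ Set.Icc 1 M).ncard ≤ (Set.Icc 1 M).ncard :=
          Set.ncard_le_ncard Set.inter_subset_right (Set.finite_Icc 1 M)
      _ = M := by
          rw [← Finset.coe_Icc, Set.ncard_coe_finset]; simp
  have h2 : ((A ∩ Set.Icc 1 M).ncard : ℝ) ≤ M := by exact_mod_cast h1
  rcases Nat.eq_zero_or_pos M with rfl | hM
  · simp
  · rw [div_le_one (by exact_mod_cast hM)]
    exact h2

theorem frequently_factorial {P : ℕ → Prop} (h : ∀ᶠ n : ℕ in atTop, P n.factorial) :
    ∃ᶠ N : ℕ in atTop, P N := by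
  have ht : Tendsto (fun n : ℕ => n.factorial) atTop atTop :=
    tendsto_atTop_mono Nat.self_le_factorial tendsto_id
  exact ht.frequently h.frequently

/-- density of `modBlocks` -/
theorem density_mod {a r : ℝ} (ha : 0 < a) (ha1 : a < 1) (hr : 1 < r) (har : 1 < a * r)
    (L q : ℕ) (hq : 1 ≤ q) (D : ℝ)
    (hD : D < (1 - a) * ∑ i ∈ Finset.range L, (1 / r) ^ i) :
    1 - (1 - D) / q < upperDensity (modBlocks a r L q) := by
  classical
  have hqR : (0 : ℝ) < q := by exact_mod_cast hq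
  set S : ℝ := (1 - a) * ∑ i ∈ Finset.range L, (1 / r) ^ i with hS
  set D' : ℝ := (D + S) / 2 with hD'
  have hDD' : D < D' := by rw [hD']; linarith
  have hD'S : D' < S := by rw [hD']; linarith
  have hlt : 1 - (1 - D) / q < 1 - (1 - D') / q := by
    have : (1 - D') / q < (1 - D) / q := by gcongr
    linarith
  refine lt_of_lt_of_le hlt ?_
  unfold upperDensity
  refine le_limsup_of_frequently_le ?_ (ratio_bdd _)
  refine frequently_factorial (P := fun N => 1 - (1 - D') / q ≤
    ((modBlocks a r L q ∩ Set.Icc 1 N).ncard : ℝ) / N) ?_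
  have hlarge : ∀ᶠ n : ℕ in atTop, (L : ℝ) * q / (S - D') ≤ (n : ℝ) :=
    tendsto_natCast_atTop_atTop.eventually_ge_atTop _
  filter_upwards [hlarge] with n hn
  have hposf : (0 : ℝ) < n.factorial := by exact_mod_cast Nat.factorial_pos n
  have hnf : (n : ℝ) ≤ n.factorial := by exact_mod_cast Nat.self_le_factorial n
  rw [le_div_iff₀ hposf]
  -- counting
  set M := n.factorial with hM
  have c1 := count_blocks ha ha1 hr har L q hq n
  rw [← hS, ← hM] at c1
  set U : Set ℕ := {x | q ∣ x ∧ x ∈ blocks a r L} ∩ Set.Icc 1 M with hU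
  set V : Set ℕ := {x | ¬ q ∣ x} ∩ Set.Icc 1 M with hV
  have hfinM := Set.finite_Icc 1 M
  have hUV : modBlocks a r L q ∩ Set.Icc 1 M = U ∪ V := by
    ext x
    simp only [hU, hV, modBlocks, Set.mem_inter_iff, Set.mem_ofPred_eq, Set.mem_union, Set.mem_Icc]
    tauto
  have hdis : Disjoint U V := by
    rw [Set.disjoint_left]
    intro x hx hx'
    exact hx'.1 hx.1.1
  have hcUV : (modBlocks a r L q ∩ Set.Icc 1 M).ncard = U.ncard + V.ncard := by
    rw [hUV]
    exact Set.ncard_union_eq hdis (hfinM.inter_of_right _) (hfinM.inter_of_right _)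
  -- multiples of `q`
  have hVc : (M : ℝ) - M / q ≤ (V.ncard : ℝ) := by
    set W : Set ℕ := {x | q ∣ x} ∩ Set.Icc 1 M with hW
    have hWV : W ∪ V = Set.Icc 1 M := by
      ext x
      simp only [hW, hV, Set.mem_inter_iff, Set.mem_ofPred_eq, Set.mem_union, Set.mem_Icc]
      tauto
    have hdis2 : Disjoint W V := by
      rw [Set.disjoint_left]
      intro x hx hx'
      exact hx'.1 hx.1
    have hc := Set.ncard_union_eq hdis2 (hfinM.inter_of_right _) (hfinM.inter_of_right _)
    rw [hWV, ← Finset.coe_Icc, Set.ncard_coe_finset, Nat.card_Icc] at hc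
    have hWle : W.ncard ≤ M / q := by
      have hsub : W ⊆ (((Finset.Icc 1 (M / q)).image (fun j => q * j) : Finset ℕ) : Set ℕ) := by
        rintro x ⟨⟨j, rfl⟩, h1, h2⟩
        rw [Finset.mem_coe, Finset.mem_image]
        refine ⟨j, ?_, rfl⟩
        rw [Finset.mem_Icc]
        refine ⟨Nat.pos_of_mul_pos_left h1 |> fun h => h, ?_⟩
        rw [Nat.le_div_iff_mul_le hq]
        linarith
      refine (Set.ncard_le_ncard hsub (Finset.finite_toSet _)).trans ?_
      rw [Set.ncard_coe_finset]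
      refine Finset.card_image_le.trans ?_
      simp
    have hWR : (W.ncard : ℝ) ≤ M / q := by
      refine le_trans ?_ (Nat.cast_div_le (m := M) (n := q) (α := ℝ))
      exact_mod_cast hWle
    have hcR : (M : ℝ) = W.ncard + V.ncard := by
      have : M = W.ncard + V.ncard := by omega
      exact_mod_cast this
    linarith
  rw [hcUV]
  push_cast
  have hfin : (L : ℝ) ≤ (S - D') * M / q := by
    rw [div_le_iff₀ (by linarith)] at hn
    rw [le_div_iff₀ hqR]
    nlinarith
  have e1 : (1 - (1 - D') / q) * M = M - M / q + (D' * M / q) := by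
    field_simp
    ring
  have e2 : (S - D') * M / q = S * M / q - D' * M / q := by ring
  rw [e1]
  rw [e2] at hfin
  linarith

theorem modBlocks_one (a r : ℝ) (L : ℕ) : modBlocks a r L 1 = blocks a r L := by
  ext x
  simp only [modBlocks, blocks, Set.mem_ofPred_eq, one_dvd, not_true_eq_false, false_or]
  tauto

/-- The exponent `g = max (k, (k+1)/k)`. -/
noncomputable def g (k : ℝ) : ℝ := max k ((k + 1) / k)

/-- The density reached: `k g/((k+1) g - 1)`; it is `k^2/(k^2+k-1)` if `k^2 ≥ k+1` and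
`k(k+1)/(k^2+k+1)` if `k^2 ≤ k+1`. -/
noncomputable def threshold (k : ℝ) : ℝ := k * g k / ((k + 1) * g k - 1)

theorem g_gt_one {k : ℝ} (hk : 1 < k) : 1 < g k := lt_of_lt_of_le hk (le_max_left _ _)

theorem g_lt {k : ℝ} (hk : 1 < k) : g k < k + 1 := by
  unfold g
  rw [max_lt_iff]
  refine ⟨by linarith, ?_⟩
  rw [div_lt_iff₀ (by linarith)]
  nlinarith

theorem threshold_gt {k : ℝ} (hk : 1 < k) : (k + 1) / (k + 2) < threshold k := by
  have h1 := g_gt_one hk
  have h2 := g_lt hk
  unfold threshold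
  have h3 : 0 < (k + 1) * g k - 1 := by nlinarith
  rw [div_lt_div_iff₀ (by linarith) h3]
  nlinarith

theorem exists_params {k D : ℝ} (hk : 1 < k) (hD : D < threshold k) :
    ∃ a r : ℝ, ∃ L : ℕ, 0 < a ∧ a < 1 ∧ 1 < r ∧ 1 < (k + 1) * a ∧ k + 1 < a * r * k ∧ k < a * r ∧
      D < (1 - a) * ∑ i ∈ Finset.range L, (1 / r) ^ i := by
  have h1 := g_gt_one hk
  have h2 := g_lt hk
  have hk0 : 0 < k := by linarith
  have hk1 : 0 < k + 1 := by linarith
  have hden : 0 < g k - 1 / (k + 1) := by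
    have : 1 / (k + 1) < 1 := by rw [div_lt_one hk1]; linarith
    linarith
  let F : ℝ → ℝ := fun ε => (1 - (1 / (k + 1) + ε)) * (g k + ε) / (g k - 1 / (k + 1))
  have hF0 : D < F 0 := by
    have : F 0 = threshold k := by
      simp only [F, threshold, add_zero]
      have h3 : (k + 1) * g k - 1 ≠ 0 := by nlinarith
      have h4 : g k - 1 / (k + 1) = ((k + 1) * g k - 1) / (k + 1) := by
        field_simp
      rw [h4]
      field_simp
      ring
    rw [this]; exact hD
  have hFc : Continuous F := by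
    simp only [F]
    fun_prop
  have hev : ∀ᶠ ε in 𝓝[>] (0 : ℝ), D < F ε :=
    (hFc.tendsto 0).eventually (lt_mem_nhds hF0) |>.filter_mono nhdsWithin_le_nhds
  have hev2 : ∀ᶠ ε in 𝓝[>] (0 : ℝ), ε < k / (k + 1) :=
    Filter.Eventually.filter_mono nhdsWithin_le_nhds (gt_mem_nhds (by positivity))
  obtain ⟨ε, ⟨hε1, hε2⟩, hε0⟩ := ((hev.and hev2).and self_mem_nhdsWithin).exists
  have hε0' : 0 < ε := hε0
  set a : ℝ := 1 / (k + 1) + ε with haa
  have ha0 : 0 < a := by positivity
  have ha1 : a < 1 := by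
    have : 1 / (k + 1) + k / (k + 1) = 1 := by field_simp; ring
    linarith
  set r : ℝ := (g k + ε) / a with hrr
  have har : a * r = g k + ε := by rw [hrr]; field_simp
  have hr1 : 1 < r := by
    rw [hrr, one_lt_div ha0]
    linarith
  have hgk : k ≤ g k := le_max_left _ _
  have hgk2 : (k + 1) / k ≤ g k := le_max_right _ _
  have hlim : Tendsto (fun L : ℕ => (1 - a) * ∑ i ∈ Finset.range L, (1 / r) ^ i) atTop
      (𝓝 ((1 - a) * (1 - 1 / r)⁻¹)) := by
    refine Tendsto.const_mul _ ?_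
    refine (hasSum_geometric_of_lt_one (by positivity) ?_).tendsto_sum_nat
    rw [div_lt_one (by linarith)]
    exact hr1
  have hval : (1 - a) * (1 - 1 / r)⁻¹ = F ε := by
    simp only [F]
    have hr0 : r ≠ 0 := by positivity
    have h5 : g k - 1 / (k + 1) = a * r - a := by rw [har, haa]; ring
    rw [h5, ← har]
    have h6 : r - 1 ≠ 0 := by linarith
    have h7 : 1 - 1 / r = (r - 1) / r := by field_simp
    rw [h7]
    have h8 : a * r - a = a * (r - 1) := by ring
    rw [h8, ← haa]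
    field_simp
  rw [hval] at hlim
  obtain ⟨L, hL⟩ := (hlim.eventually (lt_mem_nhds hε1)).exists
  refine ⟨a, r, L, ha0, ha1, hr1, ?_, ?_, ?_, hL⟩
  · rw [haa, mul_add]
    have : (k + 1) * (1 / (k + 1)) = 1 := by field_simp
    rw [this]
    nlinarith
  · rw [har]
    rw [div_le_iff₀ hk0] at hgk2
    nlinarith
  · rw [har]; linarith

/-- The negated form of Q1, for the pair `(m, l)`, with upper density above `D`. -/
def Q1FailsAbove (m l : ℕ) (D : ℝ) : Prop :=
  ∃ A : Set ℕ, (∀ x ∈ A, 1 ≤ x) ∧ D < upperDensity A ∧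
    ∀ B : Set ℕ, B.Infinite → ∀ t : ℕ, ¬ ∀ b₁ ∈ B, ∀ b₂ ∈ B, m * b₁ + l * b₂ + t ∈ A

/-- The negated form of Q2, for the pair `(m, l)`, with upper density above `D`. -/
def Q2FailsAbove (m l : ℕ) (D : ℝ) : Prop :=
  ∃ A : Set ℕ, (∀ x ∈ A, 1 ≤ x) ∧ D < upperDensity A ∧
    ∀ B : Set ℕ, B.Infinite → ¬ ∀ b₁ ∈ B, ∀ b₂ ∈ B, m * b₁ + l * b₂ ∈ A

/-- Main result.  Let `m > l ≥ 1` and `k = m/l`.  Both Q1 and Q2 fail for `(m,l)`: the threshold in
Q1 is at least `threshold k > (k+1)/(k+2)`, and the threshold in Q2 is at least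
`1 - (1 - threshold k)/(m+l) > 1 - 1/(l(k+1)(k+2))`. -/
theorem result (m l : ℕ) (hl : 1 ≤ l) (hlm : l < m) (k : ℝ) (hk : k = (m : ℝ) / l) :
    Q1FailsAbove m l ((k + 1) / (k + 2)) ∧
    Q2FailsAbove m l (1 - 1 / (l * (k + 1) * (k + 2))) ∧
    (∀ D : ℝ, D < threshold k → Q1FailsAbove m l D) ∧
    (∀ D : ℝ, D < threshold k → Q2FailsAbove m l (1 - (1 - D) / (m + l))) ∧
    (k + 1) / (k + 2) < threshold k ∧
    1 - 1 / (l * (k + 1) * (k + 2)) < 1 - (1 - threshold k) / (m + l) := by
  have hlR : (0 : ℝ) < l := by exact_mod_cast hl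
  have hk1 : 1 < k := by
    rw [hk, one_lt_div hlR]; exact_mod_cast hlm
  have hm : (m : ℝ) = k * l := by rw [hk]; field_simp
  have A1 : ∀ D : ℝ, D < threshold k → Q1FailsAbove m l D := by
    intro D hD
    obtain ⟨a, r, L, ha0, ha1, hr1, c1, c2, c3, hL⟩ := exists_params hk1 hD
    refine ⟨blocks a r L, fun x hx => hx.1, ?_, ?_⟩
    · have := density_mod ha0 ha1 hr1 (by linarith) L 1 le_rfl D hL
      rw [modBlocks_one] at this
      simpa using this
    · intro B hB t
      rw [hk] at c1 c2 c3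
      exact no_sumset m l hl hlm ha0 hr1 c1 c2 c3 B hB t
  have A2 : ∀ D : ℝ, D < threshold k → Q2FailsAbove m l (1 - (1 - D) / (m + l)) := by
    intro D hD
    obtain ⟨a, r, L, ha0, ha1, hr1, c1, c2, c3, hL⟩ := exists_params hk1 hD
    refine ⟨modBlocks a r L (m + l), fun x hx => hx.1, ?_, ?_⟩
    · have := density_mod ha0 ha1 hr1 (by linarith) L (m + l) (by omega) D hL
      push_cast at this
      exact this
    · intro B hB
      rw [hk] at c1 c2 c3
      exact no_sumset_mod m l hl hlm ha0 hr1 c1 c2 c3 B hB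
  have h5 := threshold_gt hk1
  have e0 : 1 - 1 / (l * (k + 1) * (k + 2)) = 1 - (1 - (k + 1) / (k + 2)) / (m + l) := by
    rw [hm]
    have : k * l + l = l * (k + 1) := by ring
    rw [this]
    have h6 : k + 1 ≠ 0 := by linarith
    have h7 : k + 2 ≠ 0 := by linarith
    field_simp
    ring
  refine ⟨A1 _ h5, ?_, A1, A2, h5, ?_⟩
  · rw [e0]
    exact A2 _ h5
  · rw [e0]
    have hml : (0 : ℝ) < m + l := by positivity
    have : (1 - threshold k) / (m + l) < (1 - (k + 1) / (k + 2)) / (m + l) := by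
      gcongr
    linarith

end Pool.Agent.Results.MP_697cf1_co.BothFail
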